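import Pool.Agent.H95.AD.TargetsU

/-!
# Row UFS: the oscillating part for one discriminant
-/

set_option autoImplicit false

namespace Pool.Agent.H81.AD

open Pool.Agent.H31.CN Pool.Agent.H95.AD

theorem sum_bound (A D : ℕ) (f : ℕ → ℝ) (Z : ℝ) (hZ0 : 0 ≤ Z)
    (hZ : ∀ B ∈ (Finset.range (2 * A)).filter (fun B => 4 * A ∣ B ^ 2 + D), |f B| ≤ Z) :
    |∑ B ∈ (Finset.range (2 * A)).filter (fun B => 4 * A ∣ B ^ 2 + D), f B| ≤ 2 * A * Z := by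
  refine (Finset.abs_sum_le_sum_abs _ _).trans ?_
  refine (Finset.sum_le_card_nsmul _ _ _ hZ).trans ?_
  rw [nsmul_eq_mul]
  refine mul_le_mul_of_nonneg_right ?_ hZ0
  have h1 : ((Finset.range (2 * A)).filter (fun B => 4 * A ∣ B ^ 2 + D)).card ≤ 2 * A := by
    refine (Finset.card_filter_le _ _).trans ?_
    rw [Finset.card_range]
  exact_mod_cast h1

/-- the weight of the term `(e, A)` -/
noncomputable def wt (m D e A : ℕ) : ℝ :=
  Vk ((e : ℝ) ^ 2 * A / ((m : ℝ) * Real.sqrt D)) / Real.sqrt ((e : ℝ) ^ 2 * A)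

/-- the term `(e, A)` without the local weight -/
noncomputable def gt (m D e A : ℕ) : ℝ :=
  wt m D e A * ∑ B ∈ (Finset.range (2 * A)).filter (fun B => 4 * A ∣ B ^ 2 + D),
    (zf A B D - ct A D)

theorem wt_zero (m D A : ℕ) : wt m D 0 A = 0 := by
  simp [wt]

/-- the exchange of the variables -/
def sw : (ℕ × ℕ) × ℕ ≃ (ℕ × ℕ) × ℕ where
  toFun x := ((x.1.1, x.2), x.1.2)
  invFun x := ((x.1.1, x.2), x.1.2)
  left_inv := fun _ => rfl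
  right_inv := fun _ => rfl

/-- the bound for a sum over `B` -/
theorem term_bound (m D k e A : ℕ) (C N0 : ℝ) (hC : 0 < C) (hN0 : 0 ≤ N0) (z : ℕ → ℝ)
    (hz : 1 ≤ A → 1 ≤ e → ∀ B ∈ (Finset.range (2 * A)).filter (fun B => 4 * A ∣ B ^ 2 + D),
      |z B| ≤ N0 * (C * ((A : ℝ) + D) ^ k)) :
    |∑ B ∈ (Finset.range (2 * A)).filter (fun B => 4 * A ∣ B ^ 2 + D), wt m D e A * z B| ≤
      |Vk ((e : ℝ) ^ 2 * A / ((m : ℝ) * Real.sqrt D))| / Real.sqrt ((e : ℝ) ^ 2 * A) *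
        (A : ℝ) ^ (k + 1) * (2 * N0 * C * (1 + (D : ℝ)) ^ k) := by
  have hw : |wt m D e A| =
      |Vk ((e : ℝ) ^ 2 * A / ((m : ℝ) * Real.sqrt D))| / Real.sqrt ((e : ℝ) ^ 2 * A) := by
    rw [wt, abs_div, abs_of_nonneg (Real.sqrt_nonneg _)]
  rw [← hw]
  have hrhs : 0 ≤ |wt m D e A| * (A : ℝ) ^ (k + 1) * (2 * N0 * C * (1 + (D : ℝ)) ^ k) := by
    positivity
  rcases Nat.eq_zero_or_pos A with hA | hA
  · subst hA
    simpa using hrhs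
  rcases Nat.eq_zero_or_pos e with he | he
  · subst he
    simp only [wt_zero, zero_mul, Finset.sum_const_zero, abs_zero, le_refl]
  have h1 := sum_bound A D (fun B => wt m D e A * z B)
    (|wt m D e A| * (N0 * (C * ((A : ℝ) + D) ^ k))) (by positivity) (fun B hB => by
      rw [abs_mul]
      exact mul_le_mul_of_nonneg_left (hz hA he B hB) (abs_nonneg _))
  refine h1.trans ?_
  have hA1 : (1 : ℝ) ≤ A := by exact_mod_cast hA
  have hD0 : (0 : ℝ) ≤ D := Nat.cast_nonneg _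
  have h2 : ((A : ℝ) + D) ^ k ≤ (A : ℝ) ^ k * (1 + (D : ℝ)) ^ k := by
    rw [← mul_pow]
    refine pow_le_pow_left₀ (by positivity) ?_ k
    nlinarith
  calc 2 * (A : ℝ) * (|wt m D e A| * (N0 * (C * ((A : ℝ) + D) ^ k)))
      ≤ 2 * (A : ℝ) * (|wt m D e A| * (N0 * (C * ((A : ℝ) ^ k * (1 + (D : ℝ)) ^ k)))) := by
        gcongr
    _ = |wt m D e A| * (A : ℝ) ^ (k + 1) * (2 * N0 * C * (1 + (D : ℝ)) ^ k) := by ring

theorem pf_UFS (hNWE : T_NWE) (hZBD : T_ZBD) (hUSM : T_USM) : T_UFS := by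
  intro m₁ m₂ D h1 h2 hD3 hD4 hDs
  obtain ⟨C, k, hC, hzb⟩ := hZBD
  have hm : 1 ≤ m₁ * m₂ := Nat.mul_pos (Nat.pos_of_ne_zero h1.ne_zero)
    (Nat.pos_of_ne_zero h2.ne_zero)
  have hD1 : 1 ≤ D := by omega
  have hDR : (1 : ℝ) ≤ D := by exact_mod_cast hD1
  have hF := hUSM (m₁ * m₂) D (k + 1) hm hD1
  -- bounds
  obtain ⟨om, hom⟩ : ∃ om : ℝ, om = 4 ^ (m₁ * m₂).primeFactors.card := ⟨_, rfl⟩
  have hom0 : 0 ≤ om := by rw [hom]; positivity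
  have hcf : ∀ e a, 1 ≤ e → a ∈ (m₁ * m₂).divisors → |cf m₁ m₂ D e a| ≤ om := by
    intro e a he ha
    rw [hom]
    exact ((hNWE m₁ m₂ D e h1 h2 hD3 hD4 hDs he).2 a ha).1
  -- the local weight
  have hNw : ∀ e A B : ℕ, 1 ≤ e → 1 ≤ A → 4 * A ∣ B ^ 2 + D →
      (Nw m₁ m₂ A B (((B ^ 2 + D) / (4 * A) : ℕ) : ℤ) e : ℝ) =
        ∑ a ∈ (m₁ * m₂).divisors, if a ∣ A then cf m₁ m₂ D e a else 0 := by
    intro e A B he hA hB
    refine (hNWE m₁ m₂ D e h1 h2 hD3 hD4 hDs he).1 A B _ hA ?_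
    have h3 : 4 * A * ((B ^ 2 + D) / (4 * A)) = B ^ 2 + D := Nat.mul_div_cancel' hB
    have h4 : (4 * (A : ℤ)) * (((B ^ 2 + D) / (4 * A) : ℕ) : ℤ) = (B : ℤ) ^ 2 + D := by
      exact_mod_cast h3
    rw [h4]
    ring
  obtain ⟨N0, hN0⟩ : ∃ N0 : ℝ, N0 = (m₁ * m₂).divisors.card * om := ⟨_, rfl⟩
  have hN00 : 0 ≤ N0 := by rw [hN0]; positivity
  have hNwb : ∀ e A B : ℕ, 1 ≤ e → 1 ≤ A → 4 * A ∣ B ^ 2 + D →
      |(Nw m₁ m₂ A B (((B ^ 2 + D) / (4 * A) : ℕ) : ℤ) e : ℝ)| ≤ N0 := by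
    intro e A B he hA hB
    rw [hNw e A B he hA hB]
    refine (Finset.abs_sum_le_sum_abs _ _).trans ?_
    refine (Finset.sum_le_card_nsmul _ _ om ?_).trans ?_
    · intro a ha
      split_ifs
      · exact hcf e a he ha
      · rw [abs_zero]; exact hom0
    · rw [nsmul_eq_mul, hN0]
  have hmc : ((m₁ * m₂ : ℕ) : ℝ) = (m₁ : ℝ) * m₂ := by push_cast; ring
  have hUt : ∀ p : ℕ × ℕ, Ut m₁ m₂ D p.1 p.2 =
      ∑ B ∈ (Finset.range (2 * p.2)).filter (fun B => 4 * p.2 ∣ B ^ 2 + D),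
        wt (m₁ * m₂) D p.1 p.2 *
          (Nw m₁ m₂ p.2 B (((B ^ 2 + D) / (4 * p.2) : ℕ) : ℤ) p.1 * zf p.2 B D) := by
    intro p
    rw [Ut, wt, hmc]
    exact Finset.sum_congr rfl fun B _ => by ring
  have hUtc : ∀ p : ℕ × ℕ, Utc m₁ m₂ D p.1 p.2 =
      ∑ B ∈ (Finset.range (2 * p.2)).filter (fun B => 4 * p.2 ∣ B ^ 2 + D),
        wt (m₁ * m₂) D p.1 p.2 *
          (Nw m₁ m₂ p.2 B (((B ^ 2 + D) / (4 * p.2) : ℕ) : ℤ) p.1 * ct p.2 D) := by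
    intro p
    rw [Utc, wt, hmc]
    exact Finset.sum_congr rfl fun B _ => by ring
  have hsU : Summable (fun p : ℕ × ℕ => Ut m₁ m₂ D p.1 p.2) := by
    refine Summable.of_norm_bounded (hF.mul_right (2 * N0 * C * (1 + (D : ℝ)) ^ k)) fun p => ?_
    rw [Real.norm_eq_abs, hUt p]
    refine term_bound (m₁ * m₂) D k p.1 p.2 C N0 hC hN00 _ ?_
    intro hA he B hB
    rw [abs_mul]
    exact mul_le_mul (hNwb _ _ _ he hA (Finset.mem_filter.1 hB).2)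
      (hzb p.2 B D (by exact_mod_cast hA) hDR).1 (abs_nonneg _) hN00
  have hsC : Summable (fun p : ℕ × ℕ => Utc m₁ m₂ D p.1 p.2) := by
    refine Summable.of_norm_bounded (hF.mul_right (2 * N0 * C * (1 + (D : ℝ)) ^ k)) fun p => ?_
    rw [Real.norm_eq_abs, hUtc p]
    refine term_bound (m₁ * m₂) D k p.1 p.2 C N0 hC hN00 _ ?_
    intro hA he B hB
    rw [abs_mul]
    exact mul_le_mul (hNwb _ _ _ he hA (Finset.mem_filter.1 hB).2)
      (hzb p.2 B D (by exact_mod_cast hA) hDR).2 (abs_nonneg _) hN00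
  have hsg : Summable (fun p : ℕ × ℕ => |gt (m₁ * m₂) D p.1 p.2|) := by
    refine Summable.of_nonneg_of_le (fun _ => abs_nonneg _) (fun p => ?_)
      (hF.mul_right (2 * 2 * C * (1 + (D : ℝ)) ^ k))
    rw [gt, Finset.mul_sum]
    refine term_bound (m₁ * m₂) D k p.1 p.2 C 2 hC (by norm_num) _ ?_
    intro hA he B hB
    obtain ⟨e1, e2⟩ := hzb p.2 B D (by exact_mod_cast hA) hDR
    calc |zf p.2 B D - ct p.2 D| ≤ |zf p.2 B D| + |ct p.2 D| := abs_sub _ _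
      _ ≤ 2 * (C * ((p.2 : ℝ) + D) ^ k) := by linarith
  -- the triple family
  obtain ⟨T, hT⟩ : ∃ T : (ℕ × ℕ) × ℕ → ℝ, ∀ x, T x =
      if 1 ≤ x.1.1 ∧ x.1.2 ∈ (m₁ * m₂).divisors ∧ 1 ≤ x.2 ∧ x.1.2 ∣ x.2 then
        cf m₁ m₂ D x.1.1 x.1.2 * gt (m₁ * m₂) D x.1.1 x.2 else 0 := ⟨_, fun _ => rfl⟩
  have hsT' : Summable (fun x => T (sw x)) := by
    have hfin : Summable (fun a : ℕ => if a ∈ (m₁ * m₂).divisors then om else 0) :=
      summable_of_ne_finset_zero (s := (m₁ * m₂).divisors) fun a ha => if_neg ha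
    refine Summable.of_norm_bounded (Summable.mul_of_nonneg hsg hfin (fun _ => abs_nonneg _)
      (fun a => by
        show (0 : ℝ) ≤ if a ∈ (m₁ * m₂).divisors then om else 0
        split_ifs
        · exact hom0
        · exact le_rfl)) fun x => ?_
    rw [Real.norm_eq_abs, hT]
    show |if 1 ≤ x.1.1 ∧ x.2 ∈ (m₁ * m₂).divisors ∧ 1 ≤ x.1.2 ∧ x.2 ∣ x.1.2 then
        cf m₁ m₂ D x.1.1 x.2 * gt (m₁ * m₂) D x.1.1 x.1.2 else 0| ≤ _
    by_cases hx : 1 ≤ x.1.1 ∧ x.2 ∈ (m₁ * m₂).divisors ∧ 1 ≤ x.1.2 ∧ x.2 ∣ x.1.2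
    · rw [if_pos hx, if_pos hx.2.1, abs_mul, mul_comm]
      exact mul_le_mul_of_nonneg_left (hcf _ _ hx.1 hx.2.1) (abs_nonneg _)
    · rw [if_neg hx, abs_zero]
      split_ifs
      · positivity
      · simp
  have hsT : Summable T := (Equiv.summable_iff sw).1 hsT'
  -- the sum over `A`
  have hH : ∀ x : ℕ × ℕ, ∑' A, T (x, A) = if 1 ≤ x.1 ∧ x.2 ∈ (m₁ * m₂).divisors then
      cf m₁ m₂ D x.1 x.2 * UU x.2 x.1 (m₁ * m₂) D else 0 := by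
    intro x
    by_cases hx : 1 ≤ x.1 ∧ x.2 ∈ (m₁ * m₂).divisors
    · rw [if_pos hx, UU, ← tsum_mul_left]
      refine tsum_congr fun A => ?_
      rw [hT]
      by_cases hA : 1 ≤ A ∧ x.2 ∣ A
      · rw [if_pos ⟨hx.1, hx.2, hA.1, hA.2⟩, if_pos hA, gt, wt]
      · rw [if_neg (fun h => hA h.2.2), if_neg hA, mul_zero]
    · rw [if_neg hx]
      have : ∀ A, T (x, A) = 0 := fun A => by
        rw [hT, if_neg fun h => hx ⟨h.1, h.2.1⟩]
      simp only [this, tsum_zero]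
  -- the sum over `a`
  have hG : ∀ p : ℕ × ℕ, ∑' a, T (sw (p, a)) = Ut m₁ m₂ D p.1 p.2 - Utc m₁ m₂ D p.1 p.2 := by
    intro p
    rw [tsum_eq_sum (s := (m₁ * m₂).divisors) (fun a ha => by
      rw [hT, if_neg fun h => ha h.2.1])]
    rw [hUt, hUtc, ← Finset.sum_sub_distrib]
    rcases Nat.eq_zero_or_pos p.2 with hA | hA
    · rw [hA]
      simp only [mul_zero, Finset.range_zero, Finset.filter_empty, Finset.sum_empty]
      refine Finset.sum_eq_zero fun a _ => ?_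
      rw [hT, if_neg]
      rintro ⟨-, -, h, -⟩
      have : 1 ≤ p.2 := h
      omega
    rcases Nat.eq_zero_or_pos p.1 with he | he
    · rw [he]
      simp only [wt_zero, zero_mul, sub_zero, Finset.sum_const_zero]
      refine Finset.sum_eq_zero fun a _ => ?_
      rw [hT, if_neg]
      rintro ⟨h, -⟩
      have : 1 ≤ p.1 := h
      omega
    have e1 : ∀ B ∈ (Finset.range (2 * p.2)).filter (fun B => 4 * p.2 ∣ B ^ 2 + D),
        wt (m₁ * m₂) D p.1 p.2 *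
          (Nw m₁ m₂ p.2 B (((B ^ 2 + D) / (4 * p.2) : ℕ) : ℤ) p.1 * zf p.2 B D) -
        wt (m₁ * m₂) D p.1 p.2 *
          (Nw m₁ m₂ p.2 B (((B ^ 2 + D) / (4 * p.2) : ℕ) : ℤ) p.1 * ct p.2 D) =
        (∑ a ∈ (m₁ * m₂).divisors, if a ∣ p.2 then cf m₁ m₂ D p.1 a else 0) *
          (wt (m₁ * m₂) D p.1 p.2 * (zf p.2 B D - ct p.2 D)) := by
      intro B hB
      rw [hNw p.1 p.2 B he hA (Finset.mem_filter.1 hB).2]
      ring
    rw [Finset.sum_congr rfl e1, ← Finset.mul_sum, ← Finset.mul_sum, ← gt, Finset.sum_mul]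
    refine Finset.sum_congr rfl fun a ha => ?_
    rw [hT]
    show (if 1 ≤ p.1 ∧ a ∈ (m₁ * m₂).divisors ∧ 1 ≤ p.2 ∧ a ∣ p.2 then
        cf m₁ m₂ D p.1 a * gt (m₁ * m₂) D p.1 p.2 else 0) = _
    by_cases h : a ∣ p.2
    · rw [if_pos ⟨he, ha, hA, h⟩, if_pos h]
    · rw [if_neg (fun h' => h h'.2.2.2), if_neg h, zero_mul]
  have hsum1 : Summable (fun x : ℕ × ℕ => ∑' A, T (x, A)) := hsT.prod
  simp only [hH] at hsum1
  refine ⟨hsum1, ?_⟩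
  calc Uf m₁ m₂ D - Uc m₁ m₂ D
      = ∑' p : ℕ × ℕ, (Ut m₁ m₂ D p.1 p.2 - Utc m₁ m₂ D p.1 p.2) := by
        rw [Uf, Uc, hsU.tsum_sub hsC]
    _ = ∑' p : ℕ × ℕ, ∑' a, T (sw (p, a)) := tsum_congr fun p => (hG p).symm
    _ = ∑' x, T (sw x) := (hsT'.tsum_prod).symm
    _ = ∑' x, T x := Equiv.tsum_eq sw T
    _ = ∑' x : ℕ × ℕ, ∑' A, T (x, A) := hsT.tsum_prod
    _ = _ := tsum_congr hH

end Pool.Agent.H81.AD
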